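import Pool.Agent.AT3.Stmts1
import Pool.Agent.Helper65_K9.GAL

/-!
# Squad AT3, row GLP: the conjugates of an element of `ℤ[ζ]`, `ζ` of order `ℓ ^ a`
-/

set_option autoImplicit false

open scoped BigOperators

noncomputable section

namespace Pool.Agent.PP.T3.H56

open Pool.Agent.PP.K9.H65g

theorem sum_shift {M : Type} [AddCommMonoid M] (f : ℕ → M) (N : ℕ) : ∀ l : ℕ,
    ∑ i ∈ Finset.range (N * l), f i =
      ∑ r ∈ Finset.range N, ∑ t ∈ Finset.range l, f (r + N * t) := by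
  intro l
  induction l with
  | zero => simp
  | succ l ih =>
    rw [Nat.mul_succ, Finset.sum_range_add, ih]
    simp only [Finset.sum_range_succ]
    rw [Finset.sum_add_distrib]
    congr 1
    exact Finset.sum_congr rfl fun r _ => by rw [add_comm]

/-- the discriminant form -/
def Dd (l : ℕ) (f : ℕ → ℤ) : ℤ :=
  l * ∑ t ∈ Finset.range l, f t ^ 2 - (∑ t ∈ Finset.range l, f t) ^ 2

theorem Dd_const {l : ℕ} {f : ℕ → ℤ} {c : ℤ} (h : ∀ t, t < l → f t = c) : Dd l f = 0 := by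
  unfold Dd
  rw [Finset.sum_congr rfl (g := fun _ => c ^ 2) (fun t ht => by rw [h t (Finset.mem_range.1 ht)]),
    Finset.sum_congr rfl (g := fun _ => c) (fun t ht => h t (Finset.mem_range.1 ht)),
    Finset.sum_const, Finset.sum_const, Finset.card_range, nsmul_eq_mul, nsmul_eq_mul]
  ring

theorem Dd_shift (l : ℕ) (f : ℕ → ℤ) (c : ℤ) : Dd l f = Dd l (fun t => f t - c) := by
  unfold Dd
  have e1 : ∀ t, (f t - c) ^ 2 = f t ^ 2 - 2 * c * f t + c ^ 2 := fun t => by ring
  simp only [e1]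
  rw [Finset.sum_add_distrib, Finset.sum_sub_distrib, Finset.sum_sub_distrib, ← Finset.mul_sum,
    Finset.sum_const, Finset.sum_const, Finset.card_range, nsmul_eq_mul, nsmul_eq_mul]
  ring

theorem arith {l : ℕ} (hl : 2 ≤ l) (f : ℕ → ℤ) : (∃ c, ∀ t, t < l → f t = c) ∨
    ((l : ℤ) - 1 ≤ Dd l f ∧ (Dd l f = (l : ℤ) - 1 → ∃ t₀, t₀ < l ∧ ∃ c ε : ℤ, ε ^ 2 = 1 ∧
      ∀ t, t < l → f t = c + if t = t₀ then ε else 0)) := by
  obtain ⟨n, hn⟩ : ∃ n : ℕ → ℤ, n = fun i => f i - f 0 := ⟨_, rfl⟩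
  have hni : ∀ i, n i = f i - f 0 := fun i => by rw [hn]
  have hD : Dd l f = Dd l n := by rw [hn]; exact Dd_shift l f (f 0)
  obtain ⟨T, hT⟩ : ∃ T : Finset ℕ, T = (Finset.range l).filter (fun i => n i ≠ 0) := ⟨_, rfl⟩
  have hTm : ∀ i, i ∈ T ↔ i < l ∧ n i ≠ 0 := by
    intro i
    rw [hT, Finset.mem_filter, Finset.mem_range]
  have hTsub : T ⊆ (Finset.range l).erase 0 := by
    intro i hi
    have h4 := (hTm i).1 hi
    rw [Finset.mem_erase, Finset.mem_range]
    refine ⟨?_, h4.1⟩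
    intro h5
    apply h4.2
    rw [h5, hni, sub_self]
  have hecard : ((Finset.range l).erase 0).card = l - 1 := by
    rw [Finset.card_erase_of_mem (Finset.mem_range.2 (by omega)), Finset.card_range]
  by_cases hT0 : T = ∅
  · left
    refine ⟨f 0, ?_⟩
    intro t ht
    by_contra h
    have : t ∈ T := (hTm t).2 ⟨ht, by rw [hni]; exact sub_ne_zero.2 h⟩
    rw [hT0] at this
    exact absurd this (Finset.notMem_empty t)
  · right
    have hT1 : 1 ≤ T.card := Finset.card_pos.2 (Finset.nonempty_iff_ne_empty.2 hT0)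
    have hT2 : T.card ≤ l - 1 := by
      have h4 := Finset.card_le_card hTsub
      rwa [hecard] at h4
    have hsum1 : ∑ i ∈ Finset.range l, n i = ∑ i ∈ T, n i := by
      rw [hT, Finset.sum_filter]
      refine Finset.sum_congr rfl fun i _ => ?_
      by_cases h : n i ≠ 0
      · rw [if_pos h]
      · rw [if_neg h, not_not.1 h]
    have hsum2 : ∑ i ∈ Finset.range l, n i ^ 2 = ∑ i ∈ T, n i ^ 2 := by
      rw [hT, Finset.sum_filter]
      refine Finset.sum_congr rfl fun i _ => ?_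
      by_cases h : n i ≠ 0
      · rw [if_pos h]
      · rw [if_neg h, not_not.1 h]
        norm_num
    have hcs : (∑ i ∈ T, n i) ^ 2 ≤ (T.card : ℤ) * ∑ i ∈ T, n i ^ 2 := sq_sum_le_card_mul_sum_sq
    have h1T : ∀ i ∈ T, 1 ≤ n i ^ 2 := by
      intro i hi
      have h4 : 1 ≤ |n i| := Int.one_le_abs ((hTm i).1 hi).2
      rw [← sq_abs]
      nlinarith
    have hge : (T.card : ℤ) ≤ ∑ i ∈ T, n i ^ 2 := by
      calc (T.card : ℤ) = ∑ _i ∈ T, (1 : ℤ) := by simp
        _ ≤ _ := Finset.sum_le_sum h1T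
    rw [hD]
    unfold Dd
    rw [hsum1, hsum2]
    obtain ⟨k, hk⟩ : ∃ k : ℤ, k = (T.card : ℤ) := ⟨_, rfl⟩
    obtain ⟨Q, hQ⟩ : ∃ Q : ℤ, Q = ∑ i ∈ T, n i ^ 2 := ⟨_, rfl⟩
    obtain ⟨S, hS⟩ : ∃ S : ℤ, S = ∑ i ∈ T, n i := ⟨_, rfl⟩
    rw [← hk, ← hQ] at hcs hge
    rw [← hS] at hcs
    rw [← hQ, ← hS]
    have hk1 : 1 ≤ k := by rw [hk]; exact_mod_cast hT1
    have hk2 : k ≤ (l : ℤ) - 1 := by
      rw [hk]
      have : T.card + 1 ≤ l := by omega
      have h3 : ((T.card + 1 : ℕ) : ℤ) ≤ l := by exact_mod_cast this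
      push_cast at h3
      linarith
    have h5 : ((l : ℤ) - k) * k ≤ ((l : ℤ) - k) * Q := mul_le_mul_of_nonneg_left hge (by linarith)
    have h6 : 0 ≤ (k - 1) * ((l : ℤ) - 1 - k) := mul_nonneg (by linarith) (by linarith)
    refine ⟨by nlinarith, ?_⟩
    intro heq
    have e1 : (k - 1) * ((l : ℤ) - 1 - k) = 0 := by nlinarith
    have e2 : ((l : ℤ) - k) * (Q - k) = 0 := by nlinarith
    have e3 : Q = k := by
      rcases mul_eq_zero.1 e2 with h | h
      · exfalso
        linarith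
      · linarith
    have e4 : S ^ 2 = k ^ 2 := by
      have : S ^ 2 = k * Q := by nlinarith
      rw [this, e3]
      ring
    -- all values are `±1`
    have h7 : ∀ i ∈ T, n i ^ 2 = 1 := by
      have h8 : ∑ i ∈ T, (n i ^ 2 - 1) = 0 := by
        rw [Finset.sum_sub_distrib, ← hQ, Finset.sum_const, nsmul_eq_mul, mul_one, ← hk, e3]
        ring
      have h9 := (Finset.sum_eq_zero_iff_of_nonneg (fun i hi => by
        have := h1T i hi
        linarith)).1 h8
      intro i hi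
      have := h9 i hi
      linarith
    have hval : ∃ ε : ℤ, ε ^ 2 = 1 ∧ ∀ i ∈ T, n i = ε := by
      have hle : ∀ i ∈ T, n i ≤ 1 ∧ -1 ≤ n i := by
        intro i hi
        have := h7 i hi
        constructor <;> nlinarith
      rcases sq_eq_sq_iff_eq_or_eq_neg.1 e4 with h | h
      · refine ⟨1, by norm_num, ?_⟩
        have h8 : ∑ i ∈ T, (1 - n i) = 0 := by
          rw [Finset.sum_sub_distrib, ← hS, Finset.sum_const, nsmul_eq_mul, mul_one, ← hk, h]
          ring
        have h9 := (Finset.sum_eq_zero_iff_of_nonneg (fun i hi => by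
          have := (hle i hi).1
          linarith)).1 h8
        intro i hi
        have := h9 i hi
        linarith
      · refine ⟨-1, by norm_num, ?_⟩
        have h8 : ∑ i ∈ T, (1 + n i) = 0 := by
          rw [Finset.sum_add_distrib, ← hS, Finset.sum_const, nsmul_eq_mul, mul_one, ← hk, h]
          ring
        have h9 := (Finset.sum_eq_zero_iff_of_nonneg (fun i hi => by
          have := (hle i hi).2
          linarith)).1 h8
        intro i hi
        have := h9 i hi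
        linarith
    obtain ⟨ε, hε, hval⟩ := hval
    have hout : ∀ i, i < l → i ∉ T → f i = f 0 := by
      intro i hi hiT
      by_contra h
      exact hiT ((hTm i).2 ⟨hi, by rw [hni]; exact sub_ne_zero.2 h⟩)
    rcases mul_eq_zero.1 e1 with h | h
    · have hc1 : T.card = 1 := by
        have : (T.card : ℤ) = 1 := by rw [← hk]; linarith
        exact_mod_cast this
      obtain ⟨t₀, ht₀⟩ := Finset.card_eq_one.1 hc1
      have hm : t₀ ∈ T := by rw [ht₀]; exact Finset.mem_singleton_self _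
      refine ⟨t₀, ((hTm t₀).1 hm).1, f 0, ε, hε, ?_⟩
      intro t ht
      by_cases htt : t = t₀
      · rw [if_pos htt, htt]
        have := hval t₀ hm
        rw [hni] at this
        linarith
      · rw [if_neg htt, add_zero]
        apply hout t ht
        rw [ht₀, Finset.mem_singleton]
        exact htt
    · have hc1 : T.card = l - 1 := by
        have h3 : (T.card : ℤ) = (l : ℤ) - 1 := by rw [← hk]; linarith
        omega
      have hTe : T = (Finset.range l).erase 0 :=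
        Finset.eq_of_subset_of_card_le hTsub (by rw [hecard, hc1])
      refine ⟨0, by omega, f 0 + ε, -ε, by rw [neg_sq]; exact hε, ?_⟩
      intro t ht
      by_cases htt : t = 0
      · rw [if_pos htt, htt]
        ring
      · rw [if_neg htt, add_zero]
        have hm : t ∈ T := by
          rw [hTe, Finset.mem_erase, Finset.mem_range]
          exact ⟨htt, ht⟩
        have := hval t hm
        rw [hni] at this
        linarith

theorem Dd_nonneg {l : ℕ} (hl : 2 ≤ l) (f : ℕ → ℤ) : 0 ≤ Dd l f := by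
  rcases arith hl f with ⟨c, hc⟩ | ⟨h, _⟩
  · rw [Dd_const hc]
  · have : (2 : ℤ) ≤ l := by exact_mod_cast hl
    linarith

/-- the values of the element at the exponents prime to `ℓ` -/
theorem val_eq {l N : ℕ} (hN : 0 < N) (hl : 0 < l) {ζ : ℂ} (hζ : IsPrimitiveRoot ζ (N * l))
    (m : ℕ → ℤ) (c : ℕ → ℤ) {j : ℕ} (hj : ¬ l ∣ j) :
    ∑ i ∈ Finset.range (N * l), (m i : ℂ) * ζ ^ (i * j) =
      ∑ r ∈ Finset.range N, ζ ^ (r * j) *
        ∑ t ∈ Finset.range l, ((m (r + N * t) - c r : ℤ) : ℂ) * (ζ ^ (N * j)) ^ t := by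
  rw [sum_shift]
  apply Finset.sum_congr rfl
  intro r _
  have h0 : ∑ t ∈ Finset.range l, (ζ ^ (N * j)) ^ t = 0 := by
    apply geom_zero
    · intro h
      rw [hζ.pow_eq_one_iff_dvd] at h
      exact hj (Nat.dvd_of_mul_dvd_mul_left hN h)
    · rw [← pow_mul, show N * j * l = (N * l) * j by ring, pow_mul, hζ.pow_eq_one, one_pow]
  have h1 : ∑ t ∈ Finset.range l, ((m (r + N * t) - c r : ℤ) : ℂ) * (ζ ^ (N * j)) ^ t =
      ∑ t ∈ Finset.range l, (m (r + N * t) : ℂ) * (ζ ^ (N * j)) ^ t := by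
    have h2 : ∀ t, ((m (r + N * t) - c r : ℤ) : ℂ) * (ζ ^ (N * j)) ^ t =
        (m (r + N * t) : ℂ) * (ζ ^ (N * j)) ^ t - (c r : ℂ) * (ζ ^ (N * j)) ^ t := by
      intro t
      push_cast
      ring
    simp only [h2]
    rw [Finset.sum_sub_distrib, ← Finset.mul_sum, h0, mul_zero, sub_zero]
  rw [h1, Finset.mul_sum]
  apply Finset.sum_congr rfl
  intro t _
  have h3 : ζ ^ ((r + N * t) * j) = ζ ^ (r * j) * (ζ ^ (N * j)) ^ t := by
    rw [← pow_mul, ← pow_add]
    congr 1
    ring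
  rw [h3]
  ring

/-- the identity -/
theorem main_id {l N : ℕ} (hN : 0 < N) (hl : 0 < l) {ζ : ℂ} (hζ : IsPrimitiveRoot ζ (N * l))
    (m : ℕ → ℤ) :
    ∑ j ∈ (Finset.range (N * l)).filter (fun j => ¬ l ∣ j),
      Complex.normSq (∑ i ∈ Finset.range (N * l), (m i : ℂ) * ζ ^ (i * j)) =
      N * ((∑ r ∈ Finset.range N, Dd l (fun t => m (r + N * t)) : ℤ) : ℝ) := by
  have hp := parseval (Nat.mul_pos hN hl) hζ m
  have hη : IsPrimitiveRoot (ζ ^ l) N := hζ.pow (Nat.mul_pos hN hl) (by ring)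
  obtain ⟨Mr, hMr⟩ : ∃ Mr : ℕ → ℤ, Mr = fun r => ∑ t ∈ Finset.range l, m (r + N * t) := ⟨_, rfl⟩
  have hp2 := parseval hN hη Mr
  have hsplit := Finset.sum_filter_add_sum_filter_not (Finset.range (N * l)) (fun j => l ∣ j)
    (fun j => Complex.normSq (∑ i ∈ Finset.range (N * l), (m i : ℂ) * ζ ^ (i * j)))
  have hdiv : ∑ j ∈ (Finset.range (N * l)).filter (fun j => l ∣ j),
      Complex.normSq (∑ i ∈ Finset.range (N * l), (m i : ℂ) * ζ ^ (i * j)) =
      ∑ k ∈ Finset.range N,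
        Complex.normSq (∑ r ∈ Finset.range N, (Mr r : ℂ) * (ζ ^ l) ^ (r * k)) := by
    symm
    apply Finset.sum_nbij (fun k => l * k)
    · intro k hk
      rw [Finset.mem_filter, Finset.mem_range]
      rw [Finset.mem_range] at hk
      refine ⟨?_, Dvd.intro _ rfl⟩
      rw [Nat.mul_comm N l]
      exact Nat.mul_lt_mul_of_pos_left hk hl
    · intro k _ k' _ h
      exact Nat.eq_of_mul_eq_mul_left hl h
    · intro j hj
      rw [Finset.mem_coe, Finset.mem_filter, Finset.mem_range] at hj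
      obtain ⟨hj1, k, rfl⟩ := hj
      refine ⟨k, ?_, rfl⟩
      rw [Finset.mem_coe, Finset.mem_range]
      rw [Nat.mul_comm N l] at hj1
      exact Nat.lt_of_mul_lt_mul_left hj1
    · intro k _
      congr 1
      rw [sum_shift]
      apply Finset.sum_congr rfl
      intro r _
      rw [hMr]
      push_cast
      rw [Finset.sum_mul]
      apply Finset.sum_congr rfl
      intro t _
      congr 1
      rw [← pow_mul]
      have h3 : (r + N * t) * (l * k) = l * (r * k) + (N * l) * (t * k) := by ring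
      rw [h3, pow_add, pow_mul ζ (N * l), hζ.pow_eq_one, one_pow, mul_one]
  have hsq : ∑ i ∈ Finset.range (N * l), (m i : ℝ) ^ 2 =
      ∑ r ∈ Finset.range N, ∑ t ∈ Finset.range l, (m (r + N * t) : ℝ) ^ 2 := sum_shift _ N l
  have hfin : ((∑ r ∈ Finset.range N, Dd l (fun t => m (r + N * t)) : ℤ) : ℝ) =
      l * ∑ r ∈ Finset.range N, ∑ t ∈ Finset.range l, (m (r + N * t) : ℝ) ^ 2 -
        ∑ r ∈ Finset.range N, (Mr r : ℝ) ^ 2 := by
    unfold Dd
    rw [hMr]
    push_cast
    rw [Finset.sum_sub_distrib, Finset.mul_sum]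
  rw [hdiv, hp2, hp, hsq] at hsplit
  rw [hfin]
  push_cast at hsplit
  linarith

theorem glp : GlpStmt := by
  intro ℓ hfact a ha ζ hζ m hm
  have hp : ℓ.Prime := Fact.out
  have hl2 := hp.two_le
  have hl := hp.pos
  obtain ⟨N, hN⟩ : ∃ N : ℕ, N = ℓ ^ (a - 1) := ⟨_, rfl⟩
  have hN0 : 0 < N := by rw [hN]; exact Nat.pow_pos hl
  have hNl : ℓ ^ a = N * ℓ := by
    rw [hN, ← pow_succ]
    congr 1
    omega
  rw [hNl] at hζ hm ⊢
  rw [← hN]
  rw [main_id hN0 hl hζ m]
  have hndiv1 : ¬ ℓ ∣ 1 := by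
    intro h
    have := Nat.le_of_dvd one_pos h
    omega
  -- some class is not constant
  have hex : ∃ r ∈ Finset.range N, ¬ ∃ c, ∀ t, t < ℓ → m (r + N * t) = c := by
    by_contra hcon
    push Not at hcon
    choose! c hc using hcon
    apply hm
    have h1 := val_eq hN0 hl hζ m c hndiv1
    simp only [mul_one] at h1
    rw [h1]
    apply Finset.sum_eq_zero
    intro r hr
    have h2 : ∑ t ∈ Finset.range ℓ, ((m (r + N * t) - c r : ℤ) : ℂ) * (ζ ^ N) ^ t = 0 := by
      apply Finset.sum_eq_zero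
      intro t ht
      rw [hc r hr t (Finset.mem_range.1 ht), sub_self]
      simp
    rw [h2, mul_zero]
  obtain ⟨r₀, hr₀, hnc⟩ := hex
  have har : ∀ r, (∃ c, ∀ t, t < ℓ → m (r + N * t) = c) ∨
    ((ℓ : ℤ) - 1 ≤ Dd ℓ (fun t => m (r + N * t)) ∧
      (Dd ℓ (fun t => m (r + N * t)) = (ℓ : ℤ) - 1 → ∃ t₀, t₀ < ℓ ∧ ∃ c ε : ℤ, ε ^ 2 = 1 ∧
      ∀ t, t < ℓ → m (r + N * t) = c + if t = t₀ then ε else 0)) :=
    fun r => arith hl2 (fun t => m (r + N * t))
  have h0 : ∀ r, 0 ≤ Dd ℓ (fun t => m (r + N * t)) := fun r => Dd_nonneg hl2 _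
  have hr1 : (ℓ : ℤ) - 1 ≤ Dd ℓ (fun t => m (r₀ + N * t)) := by
    rcases har r₀ with h | h
    · exact absurd h hnc
    · exact h.1
  have hsplit := Finset.add_sum_erase (Finset.range N)
    (fun r => Dd ℓ (fun t => m (r + N * t))) hr₀
  have hrest : 0 ≤ ∑ r ∈ (Finset.range N).erase r₀, Dd ℓ (fun t => m (r + N * t)) :=
    Finset.sum_nonneg fun r _ => h0 r
  have hcast : (((N * (ℓ - 1) : ℕ) : ℕ) : ℝ) = N * (((ℓ : ℤ) - 1 : ℤ) : ℝ) := by
    push_cast [hp.one_le]
    ring
  have hNR : (0 : ℝ) < N := by exact_mod_cast hN0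
  constructor
  · rw [hcast]
    apply mul_le_mul_of_nonneg_left _ hNR.le
    have : (ℓ : ℤ) - 1 ≤ ∑ r ∈ Finset.range N, Dd ℓ (fun t => m (r + N * t)) := by
      rw [← hsplit]
      linarith
    exact_mod_cast this
  · intro heq j hj
    rw [hcast] at heq
    have heq2 : ∑ r ∈ Finset.range N, Dd ℓ (fun t => m (r + N * t)) = (ℓ : ℤ) - 1 := by
      have := mul_left_cancel₀ hNR.ne' heq
      exact_mod_cast this
    rw [← hsplit] at heq2
    have e1 : Dd ℓ (fun t => m (r₀ + N * t)) = (ℓ : ℤ) - 1 := by linarith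
    have e2 : ∑ r ∈ (Finset.range N).erase r₀, Dd ℓ (fun t => m (r + N * t)) = 0 := by linarith
    have e3 := (Finset.sum_eq_zero_iff_of_nonneg (fun r _ => h0 r)).1 e2
    have hcon : ∀ r, r ∈ (Finset.range N).erase r₀ → ∃ c, ∀ t, t < ℓ → m (r + N * t) = c := by
      intro r hr
      rcases har r with h | h
      · exact h
      · exfalso
        have h1 := e3 r hr
        have h2 := h.1
        have h3 : (2 : ℤ) ≤ ℓ := by exact_mod_cast hl2
        linarith
    obtain ⟨t₀, ht₀, c₀, ε, hε, hval⟩ : ∃ t₀, t₀ < ℓ ∧ ∃ c ε : ℤ, ε ^ 2 = 1 ∧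
        ∀ t, t < ℓ → m (r₀ + N * t) = c + if t = t₀ then ε else 0 := by
      rcases har r₀ with h | h
      · exact absurd h hnc
      · exact h.2 e1
    choose! c hc using hcon
    have h1 := val_eq hN0 hl hζ m (fun r => if r = r₀ then c₀ else c r) hj
    rw [h1, ← Finset.add_sum_erase _ _ hr₀]
    have h2 : ∑ r ∈ (Finset.range N).erase r₀, ζ ^ (r * j) *
        ∑ t ∈ Finset.range ℓ, ((m (r + N * t) - (if r = r₀ then c₀ else c r) : ℤ) : ℂ) *
          (ζ ^ (N * j)) ^ t = 0 := by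
      apply Finset.sum_eq_zero
      intro r hr
      have h3 : ∑ t ∈ Finset.range ℓ, ((m (r + N * t) - (if r = r₀ then c₀ else c r) : ℤ) : ℂ) *
          (ζ ^ (N * j)) ^ t = 0 := by
        apply Finset.sum_eq_zero
        intro t ht
        rw [if_neg (Finset.ne_of_mem_erase hr), hc r hr t (Finset.mem_range.1 ht), sub_self]
        simp
      rw [h3, mul_zero]
    rw [h2, add_zero]
    have h4 : ∑ t ∈ Finset.range ℓ, ((m (r₀ + N * t) - (if r₀ = r₀ then c₀ else c r₀) : ℤ) : ℂ) *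
          (ζ ^ (N * j)) ^ t = (ε : ℂ) * (ζ ^ (N * j)) ^ t₀ := by
      rw [Finset.sum_eq_single t₀]
      · rw [if_pos rfl, hval t₀ ht₀, if_pos rfl, add_sub_cancel_left]
      · intro t ht htt
        rw [if_pos rfl, hval t (Finset.mem_range.1 ht), if_neg htt, add_zero, sub_self]
        simp
      · intro h
        exact absurd (Finset.mem_range.2 ht₀) h
    rw [h4]
    have hnorm : Complex.normSq ζ = 1 := by
      rw [Complex.normSq_eq_norm_sq, hζ.norm'_eq_one (Nat.mul_pos hN0 hl).ne']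
      norm_num
    rw [map_mul, map_mul, map_pow, map_pow, map_pow, hnorm, one_pow, one_pow, one_pow, one_mul,
      mul_one]
    have h5 : Complex.normSq (ε : ℂ) = ((ε ^ 2 : ℤ) : ℝ) := by
      rw [← Complex.ofReal_intCast, Complex.normSq_ofReal]
      push_cast
      ring
    rw [h5, hε]
    norm_num

end Pool.Agent.PP.T3.H56
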