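import Pool.Agent.AT3.Stmts1
import Pool.Agent.Helper10_K9.SM2

/-!
# Squad AT3, row SMG: the second main theorem for all `ℓ`-elements
-/

open scoped BigOperators

set_option linter.unusedSectionVars false

noncomputable section

namespace Pool.Agent.PP.T3.H56

open Pool.Agent.Helper51_AWC Pool.Agent.Helper79_WRA Pool.Agent.PP Pool.Agent.PP.KF
open Pool.Agent.PP.K9 Pool.Agent.PP.KF.H71 Pool.Agent.PP.KF.H92 Pool.Agent.PP.K9.H10

attribute [local instance] Ideal.Quotient.field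

section ring

variable {F : Type} [Field F] {G : Type} [Group G] [Fintype G] [DecidableEq G]

theorem Km_sum (q : ℕ) (a : ℕ → G → F) (b : G → F) :
    ∑ i ∈ Finset.range q, Km (a i) b = Km (∑ i ∈ Finset.range q, a i) b := by
  ext x y
  rw [Matrix.sum_apply]
  simp only [Km_apply, Finset.sum_apply, Finset.sum_mul]
  rw [Finset.sum_comm]

end ring

theorem part1 (trg : TrgStmt) (cyc : CycStmt) (ℓ : ℕ) [Fact ℓ.Prime]
    (M : Ideal (integralClosure ℤ ℂ)) [M.IsMaximal] (hM : (ℓ : integralClosure ℤ ℂ) ∈ M)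
    (G : Type) [Group G] [Finite G] (y s : G) (hy1 : y ≠ 1) (hy : El ℓ y) (hs : s ∈ Cu y)
    (hsr : Reg ℓ s) (b : Cu y → FF M) (hb : IsIdem b) (e : G → FF M) (he : IsIdem e)
    (heb : mulF (fun t : Cu y => e t) b = b) :
    ∀ χ ∈ Irr G, χ ∉ IrrE M e → gbv (Cu y) (y * s) (eh M b) χ = 0 := by
  classical
  have hℓ : ℓ.Prime := Fact.out
  have := Fintype.ofFinite G
  obtain ⟨n, hyn⟩ := hy
  have hyC : y ∈ Cu y := u_mem y
  have hm0 : 0 < orderOf s := orderOf_pos s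
  have hml : ¬ ℓ ∣ orderOf s := (Nat.Prime.coprime_iff_not_dvd hℓ).1 (Nat.Coprime.symm hsr)
  have hcomm : Commute y s := by
    have := (Subgroup.mem_centralizer_iff.1 hs) y (Set.mem_singleton y)
    exact this
  obtain ⟨h1, h2, -⟩ := KF.H25.idm M (Cu y) b hb
  obtain ⟨k1, k2, k3⟩ := KF.H25.idm M G e he
  have hone : ∀ {F : Type} [Field F] (a : G → F), mulF a (dl F (1 : G)) = a := by
    intro F _ a
    rw [← H20.mulF_comm_of_cl dl_cl, dl_one_mulF]
  set g : G := y * s with hg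
  -- over the complex numbers
  set E : G → ℂ := eh M e with hE
  set bh : Cu y → ℂ := eh M b with hbh
  set B : G → ℂ := PP.ext0 (Cu y) bh with hB
  set f : G → ℂ := dl ℂ (1 : G) - E with hf
  have hfc : IsCl f := H20.isCl_sub dl_cl k2.1
  have hff : mulF f f = f := by
    rw [hf, H20.mulF_sub, hone, H20.sub_mulF, dl_one_mulF, k2.2, sub_self, sub_zero]
  have hBB : mulF B B = B := e0_idem y bh h2.2
  have hBz : ∀ z ∈ Cu y, mulF B (dl ℂ z) = mulF (dl ℂ z) B := fun z hz => dl_comm' y bh h2.1 hz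
  have hfB : mulF (mulF f B) (mulF f B) = mulF f B := cl_idem hfc hff hBB
  set P : Matrix G G ℂ := Km (mulF f B) B with hP
  set U : Matrix G G ℂ := Km (dl ℂ y) (dl ℂ y⁻¹) with hU
  set W : Matrix G G ℂ := Km (dl ℂ y⁻¹) (dl ℂ (y⁻¹)⁻¹) with hW
  set V : Matrix G G ℂ := Km (dl ℂ s) (dl ℂ s⁻¹) with hV
  -- the half transversal
  set σ : Equiv.Perm G := MulAut.toPerm G (MulAut.conj y⁻¹) with hσdef
  have hσ : ∀ (k : ℕ) (x : G), (σ ^ k) x = (y ^ k)⁻¹ * x * y ^ k := by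
    intro k x
    rw [hσdef, ← map_pow, ← map_pow]
    change (y⁻¹) ^ k * x * ((y⁻¹) ^ k)⁻¹ = _
    rw [inv_pow, inv_inv]
  obtain ⟨c, hc01, hcl, hcs⟩ := cyc ℓ G σ n (by
    ext x
    rw [hσ, hyn]
    simp)
  have hcl' : ∀ x, c ((y ^ ℓ)⁻¹ * x * y ^ ℓ) = c x := by
    intro x
    rw [← hσ]
    exact hcl x
  set β' : G → ℂ := fun x => (c x : ℂ) * mulF f B x with hβ'
  set X : Matrix G G ℂ := Km β' B with hX
  -- commutation
  have hzP : ∀ z ∈ Cu y, Km (dl ℂ z) (dl ℂ z⁻¹) * P = P * Km (dl ℂ z) (dl ℂ z⁻¹) := by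
    intro z hz
    rw [hP, Km_mul, Km_mul, ← hBz z⁻¹ ((Cu y).inv_mem hz), H20.mulF_assoc f B, hBz z hz,
      ← H20.mulF_assoc, ← H20.mulF_assoc, ← H20.mulF_comm_of_cl hfc]
  have hPP : P * P = P := by
    rw [hP, Km_mul, hfB, hBB]
  have hUV : U * V = Km (dl ℂ g) (dl ℂ g⁻¹) := by
    rw [hU, hV, Km_mul, dl_dl, dl_dl, ← mul_inv_rev]
  have hVU : U * V = V * U := by
    rw [hUV, hU, hV, Km_mul, dl_dl, dl_dl, ← mul_inv_rev, ← hcomm.eq]
  have hUW : U * W = 1 := by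
    rw [hU, hW, Km_mul, dl_dl, dl_dl, mul_inv_cancel, inv_inv, mul_inv_cancel, Km_one]
  have hVm : V ^ orderOf s = 1 := by
    rw [hV, Km_dl_pow, pow_orderOf_eq_one, inv_one, Km_one]
  -- conjugation by the powers of `y`
  have hβy : ∀ (i : ℕ) (x : G), mulF f B ((y ^ i)⁻¹ * x * y ^ i) = mulF f B x := by
    intro i x
    have hz : y ^ i ∈ Cu y := (Cu y).pow_mem hyC i
    have q : mulF (dl ℂ (y ^ i)) (mulF (mulF f B) (dl ℂ (y ^ i)⁻¹)) = mulF f B := by
      rw [H20.mulF_assoc, hBz _ ((Cu y).inv_mem hz), ← H20.mulF_assoc f,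
        H20.mulF_comm_of_cl hfc, H20.mulF_assoc, ← H20.mulF_assoc (dl ℂ (y ^ i)), dl_dl,
        mul_inv_cancel, dl_one_mulF, H20.mulF_comm_of_cl hfc]
    have q1 := congrFun q x
    rw [H75.mulF_dl_left, H75.mulF_dl_right, inv_inv] at q1
    exact q1
  have hβ'z : mulF β' (dl ℂ (y ^ ℓ)) = mulF (dl ℂ (y ^ ℓ)) β' := by
    funext x
    rw [H75.mulF_dl_left, H75.mulF_dl_right]
    simp only [hβ']
    have e1 := hcl' (x * (y ^ ℓ)⁻¹)
    have e2 := hβy ℓ (x * (y ^ ℓ)⁻¹)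
    have e3 : (y ^ ℓ)⁻¹ * (x * (y ^ ℓ)⁻¹) * y ^ ℓ = (y ^ ℓ)⁻¹ * x := by group
    rw [e3] at e1 e2
    rw [e1, e2]
  have hXU : X * U ^ ℓ = U ^ ℓ * X := by
    have hz : y ^ ℓ ∈ Cu y := (Cu y).pow_mem hyC ℓ
    rw [hU, Km_dl_pow, hX, Km_mul, Km_mul, hβ'z, hBz _ ((Cu y).inv_mem hz)]
  -- the reductions
  set f' : G → FF M := dl (FF M) (1 : G) - e with hf'
  set B' : G → FF M := PP.ext0 (Cu y) b with hB'
  have hfr : ∀ g, f g ∈ RM M ∧ rr M (f g) = f' g := by
    intro g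
    rw [hf, hf', Pi.sub_apply, Pi.sub_apply]
    refine ⟨(RM M).sub_mem (dl_RM _ _).1 (k1 g).1, ?_⟩
    rw [rr_sub (dl_RM _ _).1 (k1 g).1, (dl_RM _ _).2, (k1 g).2]
  have hBr : ∀ g, B g ∈ RM M ∧ rr M (B g) = B' g := by
    intro g
    by_cases hg : g ∈ Cu y
    · rw [hB, hB', e0_app y bh ⟨g, hg⟩, e0_app y b ⟨g, hg⟩]
      exact h1 _
    · rw [hB, hB', e0_supp y bh g hg, e0_supp y b g hg]
      exact ⟨(RM M).zero_mem, rr_zero⟩
  have hff' : (fun g => rr M (f g)) = f' := funext fun g => (hfr g).2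
  have hBB' : (fun g => rr M (B g)) = B' := funext fun g => (hBr g).2
  have hfBr : ∀ g, mulF f B g ∈ RM M := fun g =>
    (mulF_RM (fun g => (hfr g).1) (fun g => (hBr g).1) g).1
  set al : G → FF M := mulF f' B' with hal
  have hfBr1 : ∀ g, rr M (mulF f B g) = al g := by
    intro g
    rw [(mulF_RM (fun g => (hfr g).1) (fun g => (hBr g).1) g).2, hff', hBB']
  have hfBr' : (fun g => rr M (mulF f B g)) = al := funext hfBr1
  have hβr : ∀ g, β' g ∈ RM M ∧ rr M (β' g) = (c g : FF M) * al g := by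
    intro g
    rcases hc01 g with h | h
    · simp only [hβ', h, Nat.cast_zero, zero_mul]
      exact ⟨(RM M).zero_mem, rr_zero⟩
    · simp only [hβ', h, Nat.cast_one, one_mul]
      exact ⟨hfBr g, hfBr1 g⟩
  have hβr' : (fun g => rr M (β' g)) = fun g => (c g : FF M) * al g := funext fun g => (hβr g).2
  have hdlr : ∀ z : G, (fun g => rr M (dl ℂ z g)) = dl (FF M) z := fun z =>
    funext fun g => (dl_RM z g).2
  have hPR : ∀ i j, P i j ∈ RM M := fun i j => Km_RM hfBr (fun g => (hBr g).1) i j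
  have hXR : ∀ i j, X i j ∈ RM M := fun i j => Km_RM (fun g => (hβr g).1) (fun g => (hBr g).1) i j
  have hzR : ∀ z : G, ∀ i j, Km (dl ℂ z) (dl ℂ z⁻¹) i j ∈ RM M := fun z i j =>
    Km_RM (fun g => (dl_RM z g).1) (fun g => (dl_RM z⁻¹ g).1) i j
  have hPm : P.map (rr M) = Km al B' := by
    rw [hP, Km_map hfBr (fun g => (hBr g).1), hfBr', hBB']
  have hXm : X.map (rr M) = Km (fun g => (c g : FF M) * al g) B' := by
    rw [hX, Km_map (fun g => (hβr g).1) (fun g => (hBr g).1), hβr', hBB']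
  have hzm : ∀ z : G, (Km (dl ℂ z) (dl ℂ z⁻¹)).map (rr M) = Km (dl (FF M) z) (dl (FF M) z⁻¹) := by
    intro z
    rw [Km_map (fun g => (dl_RM z g).1) (fun g => (dl_RM z⁻¹ g).1), hdlr, hdlr]
  have hBz' : ∀ z ∈ Cu y, mulF B' (dl (FF M) z) = mulF (dl (FF M) z) B' := fun z hz =>
    dl_comm' y b hb.1 hz
  have hali : ∀ (i : ℕ) (x : G), al ((y ^ i)⁻¹ * x * y ^ i) = al x := by
    intro i x
    rw [← hfBr1, ← hfBr1, hβy]
  have haC : ∀ g ∈ Cu y, al g = 0 := al_zero y b e he.1 hb.1 heb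
  have hterm : ∀ i : ℕ, U.map (rr M) ^ i * X.map (rr M) * W.map (rr M) ^ i =
      Km (fun x => (c ((y ^ i)⁻¹ * x * y ^ i) : FF M) * al x) B' := by
    intro i
    have hz : y ^ i ∈ Cu y := (Cu y).pow_mem hyC i
    rw [hU, hW, hzm, hzm, hXm, Km_dl_pow, Km_dl_pow, Km_mul, Km_mul, inv_pow, inv_inv,
      hBz' _ ((Cu y).inv_mem hz), ← H20.mulF_assoc (dl (FF M) (y ^ i)), dl_dl, mul_inv_cancel,
      dl_one_mulF]
    congr 1
    funext x
    rw [H75.mulF_dl_right, H75.mulF_dl_left, inv_inv]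
    have e1 : (y ^ i)⁻¹ * (x * y ^ i) = (y ^ i)⁻¹ * x * y ^ i := by group
    rw [e1]
    change (c ((y ^ i)⁻¹ * x * y ^ i) : FF M) * al ((y ^ i)⁻¹ * x * y ^ i) = _
    rw [hali]
  have hsumX : ∑ i ∈ Finset.range ℓ, U.map (rr M) ^ i * X.map (rr M) * W.map (rr M) ^ i =
      P.map (rr M) := by
    rw [Finset.sum_congr rfl fun i _ => hterm i, Km_sum, hPm]
    congr 1
    funext x
    rw [Finset.sum_apply, ← Finset.sum_mul, ← Nat.cast_sum]
    by_cases hx : σ x = x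
    · have hxC : x ∈ Cu y := by
        rw [Subgroup.mem_centralizer_singleton_iff]
        have e1 := hσ 1 x
        rw [pow_one, pow_one, hx] at e1
        calc x * y = ((y⁻¹ * x * y) * y) := by rw [← e1]
          _ = y * x := by
            have e2 : y * x = x * y := by
              conv_lhs => rw [e1]
              group
            rw [← e1, e2]
      rw [haC x hxC, mul_zero]
    · have e1 := hcs x hx
      have e2 : ∑ i ∈ Finset.range ℓ, c ((y ^ i)⁻¹ * x * y ^ i) = 1 := by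
        rw [← e1]
        exact Finset.sum_congr rfl fun i _ => by rw [hσ]
      rw [e2, Nat.cast_one, one_mul]
  have hPPm : P.map (rr M) * P.map (rr M) = P.map (rr M) := by
    rw [← map_rr_mul hPR hPR, hPP]
  have key := trg ℓ M hM G P U W V X (orderOf s) hm0 hml hPR (hzR y) (hzR y⁻¹) (hzR s) hXR hPP hUW
    hVm (hzP y hyC) (hzP s hs) hVU hXU (by rw [hsumX, hPPm, hPPm])
  -- the sum is a trace
  have hUVP : U * V * P = Km (mulF (dl ℂ g) (mulF f B)) (mulF B (dl ℂ g⁻¹)) := by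
    rw [hUV, hP, Km_mul]
  rw [hUVP] at key
  have htr : (Km (mulF (dl ℂ g) (mulF f B)) (mulF B (dl ℂ g⁻¹))).trace =
      ∑ᶠ χ ∈ Irr G, chv (mulF (dl ℂ g) (mulF f B)) χ * chv (mulF B (dl ℂ g⁻¹)) χ := by
    rw [KF.trc G, finsum_eq_sum_of_fintype, Matrix.trace]
    refine Finset.sum_congr rfl fun x _ => ?_
    rw [Matrix.diag_apply, finsum_eq_sum_of_fintype, Km_apply]
  rw [htr] at key
  have hgfB : mulF (dl ℂ g) (mulF f B) = mulF f (mulF (dl ℂ g) B) := by
    rw [← H20.mulF_assoc, ← H20.mulF_comm_of_cl hfc, H20.mulF_assoc]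
  have q1 : ∀ χ ∈ Irr G, χ ∉ IrrE M e → chv (mulF (dl ℂ g) (mulF f B)) χ *
      chv (mulF B (dl ℂ g⁻¹)) χ = ((Complex.normSq (gbv (Cu y) g bh χ) : ℝ) : ℂ) := by
    intro χ hχ hne
    have hr : res M e χ ≠ 1 := fun h => hne ⟨hχ, h⟩
    have e1 : chv (mulF (dl ℂ g) (mulF f B)) χ = gbv (Cu y) g bh χ := by
      rw [hgfB, hf, H20.sub_mulF, dl_one_mulF, chv_sub, (k3 χ hχ _).2 hr, sub_zero, hB,
        chv_left]
    have e2 : chv (mulF B (dl ℂ g⁻¹)) χ = starRingEnd ℂ (gbv (Cu y) g bh χ) := by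
      rw [hB, chv_right, hbh, gbv_conj y g b hχ]
    rw [e1, e2, Complex.mul_conj]
  have q2 : ∀ χ ∈ Irr G, χ ∈ IrrE M e → chv (mulF (dl ℂ g) (mulF f B)) χ *
      chv (mulF B (dl ℂ g⁻¹)) χ = 0 := by
    intro χ hχ hin
    have e1 : chv (mulF (dl ℂ g) (mulF f B)) χ = 0 := by
      rw [hgfB, hf, H20.sub_mulF, dl_one_mulF, chv_sub, (k3 χ hχ _).1 hin.2, sub_self]
    rw [e1, zero_mul]
  let r : (G → ℂ) → ℝ := fun χ => if χ ∈ IrrE M e then 0 else
    Complex.normSq (gbv (Cu y) g bh χ)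
  have hr0 : ∀ χ, 0 ≤ r χ := by
    intro χ
    simp only [r]
    split_ifs
    · exact le_rfl
    · exact Complex.normSq_nonneg _
  have hsum : ∑ χ ∈ (irr_finite' (G := G)).toFinset, r χ = 0 := by
    rw [finsum_mem_eq_finite_toFinset_sum _ (irr_finite' (G := G))] at key
    have e1 : ((∑ χ ∈ (irr_finite' (G := G)).toFinset, r χ : ℝ) : ℂ) = 0 := by
      rw [← key, Complex.ofReal_sum]
      refine Finset.sum_congr rfl fun χ hχ => ?_
      have hχ' : χ ∈ Irr G := (Set.Finite.mem_toFinset _).1 hχ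
      by_cases hin : χ ∈ IrrE M e
      · rw [q2 χ hχ' hin]
        simp only [r]
        rw [if_pos hin, Complex.ofReal_zero]
      · rw [q1 χ hχ' hin]
        simp only [r]
        rw [if_neg hin]
    exact_mod_cast e1
  intro χ hχ hne
  have e1 := (Finset.sum_eq_zero_iff_of_nonneg fun χ _ => hr0 χ).1 hsum χ
    ((Set.Finite.mem_toFinset _).2 hχ)
  simp only [r] at e1
  rw [if_neg hne] at e1
  exact Complex.normSq_eq_zero.1 e1

theorem smg (trg : TrgStmt) (cyc : CycStmt) : SmgStmt := by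
  intro ℓ _ M _ hM G _ _ y s hy1 hy hs hsr b hb e he
  refine ⟨part1 trg cyc ℓ M hM G y s hy1 hy hs hsr b hb e he, ?_⟩
  intro heb χ hχ
  classical
  have := Fintype.ofFinite G
  set e' : G → FF M := dl (FF M) (1 : G) - e with he'
  have hone : ∀ a : G → FF M, mulF a (dl (FF M) (1 : G)) = a := by
    intro a
    rw [← H20.mulF_comm_of_cl dl_cl, dl_one_mulF]
  have hid : IsIdem e' := by
    refine ⟨H20.isCl_sub dl_cl he.1, ?_⟩
    rw [he', H20.mulF_sub, hone, H20.sub_mulF, dl_one_mulF, he.2, sub_self, sub_zero]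
  have hee : mulF e e' = 0 := by
    rw [he', H20.mulF_sub, hone, he.2, sub_self]
  have heb' : mulF (fun t : Cu y => e' t) b = b := by
    have h2 : (fun t : Cu y => e' t) = dl (FF M) (1 : Cu y) - (fun t : Cu y => e t) := by
      funext t
      simp only [he', Pi.sub_apply]
      congr 1
      unfold dl
      by_cases ht : t = 1
      · rw [if_pos ht, if_pos (by rw [ht]; rfl)]
      · rw [if_neg ht, if_neg]
        exact fun h' => ht (Subtype.ext h')
    rw [h2, H20.sub_mulF, heb, sub_zero, dl_one_mulF]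
  refine part1 trg cyc ℓ M hM G y s hy1 hy hs hsr b hb e' hid heb' χ hχ.1 ?_
  intro hin
  have h3 := H75.res_mulF hχ.1 he.1 hid.1
  rw [hee, H75.res_zero, hχ.2, hin.2, mul_one] at h3
  exact zero_ne_one h3

end Pool.Agent.PP.T3.H56
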